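import Pool.Agent.H491R3.GB.SchFinal

set_option autoImplicit false

/-!
# MP_d9bc60_nt: Schinzel's statement for the odd multiples of almost all moduli

There is ONE thin set `B` of moduli which serves all admissible quadratic polynomials
`f(x) = x² + b x + c` at the same time: for large `x` and all `q ≤ x / 4` which lie outside `B` or
are at most `(log x)^A`, all but at most `x / (q (log x)^A)` of the odd multiples `n` of `q` in
`(x/2, x]` are of the form `f(p₁) + p₂`; in particular ALL large odd multiples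
`4 q ≤ n < q (log n)^A` of a modulus `q` outside `B` are.
-/

namespace Pool.Agent.Results.MP_d9bc60_nt.AlmostAllModuli

open Finset

/-- `n = f(p₁) + p₂` with primes `p₁, p₂`, where `f(x) = x² + b x + c`. -/
def Rep (b c : ℤ) (n : ℕ) : Prop := ∃ p₁ p₂ : ℕ, p₁.Prime ∧ p₂.Prime ∧
  (n : ℤ) = ((p₁ : ℤ) ^ 2 + b * (p₁ : ℤ) + c) + (p₂ : ℤ)

open Classical in
/-- The number of the odd multiples `n` of `q` in `(x/2, x]` which are not of this form. -/
noncomputable def exceptions (b c : ℤ) (x : ℝ) (q : ℕ) : ℕ :=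
  ((Icc 1 ⌊x⌋₊).filter (fun n : ℕ => x / 2 < (n : ℝ) ∧ q ∣ n ∧ Odd n ∧ ¬ Rep b c n)).card

theorem result (A : ℕ) : ∃ B : Set ℕ,
    (∀ X : ℝ, 2 ≤ X → {q | q ∈ B ∧ (q : ℝ) ≤ X}.Finite ∧
      ({q | q ∈ B ∧ (q : ℝ) ≤ X}.ncard : ℝ) ≤ X / Real.log X ^ A) ∧
    ∀ b c : ℤ, Odd (b + c) → ¬ (3 : ℤ) ∣ b → ∃ x₀ : ℝ,
      (∀ x : ℝ, x₀ ≤ x → ∀ q : ℕ, 0 < q → (q : ℝ) ≤ x / 4 →
        (q ∉ B ∨ (q : ℝ) ≤ Real.log x ^ A) →
        (exceptions b c x q : ℝ) ≤ x / (q * Real.log x ^ A)) ∧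
      ∀ q n : ℕ, q ∉ B → q ∣ n → Odd n → x₀ ≤ n → 4 * q ≤ n →
        (n : ℝ) < q * Real.log n ^ A → Rep b c n := by
  classical
  obtain ⟨B, hB, h⟩ := H491R3.GB.sch_main A
  refine ⟨B, hB, fun b c hbc h3 => ?_⟩
  obtain ⟨x₀, hx⟩ := h b c hbc h3
  have h1 : ∀ x : ℝ, x₀ ≤ x → ∀ q : ℕ, 0 < q → (q : ℝ) ≤ x / 4 →
        (q ∉ B ∨ (q : ℝ) ≤ Real.log x ^ A) →
        (exceptions b c x q : ℝ) ≤ x / (q * Real.log x ^ A) := by
    intro x hxx q hq hqx hqB
    unfold exceptions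
    convert hx x hxx q hq hqx hqB
    exact Iff.rfl
  refine ⟨x₀, h1, fun q n hqB hqn hodd hxn h4 hlt => ?_⟩
  by_contra hrep
  have hn0 : 0 < n := hodd.pos
  have hq0 : 0 < q := Nat.pos_of_dvd_of_pos hqn hn0
  have hqr : (q : ℝ) ≤ (n : ℝ) / 4 := by
    have : (4 : ℝ) * q ≤ n := by exact_mod_cast h4
    linarith
  have h2 := h1 n hxn q hq0 hqr (Or.inl hqB)
  have hn0r : (0 : ℝ) < n := by exact_mod_cast hn0
  have h3' : (n : ℝ) / (q * Real.log n ^ A) < 1 := by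
    rw [div_lt_one (lt_trans hn0r hlt)]
    exact hlt
  have h4' : (exceptions b c n q : ℝ) < 1 := lt_of_le_of_lt h2 h3'
  have h5 : exceptions b c n q = 0 := by
    have : exceptions b c n q < 1 := by exact_mod_cast h4'
    omega
  unfold exceptions at h5
  rw [card_eq_zero, filter_eq_empty_iff] at h5
  refine h5 (x := n) ?_ ⟨by linarith, hqn, hodd, hrep⟩
  rw [mem_Icc, Nat.floor_natCast]
  exact ⟨hn0, le_rfl⟩

end Pool.Agent.Results.MP_d9bc60_nt.AlmostAllModuli
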